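import Mathlib
import Pool.Agent.TARF.ALL

/-!
MP_40d138_al, Q1: the natural numbers which are Tarski numbers of finitely generated groups are
exactly the numbers `k ≥ 4`, and some finitely generated groups have no paradoxical
decomposition.  For every `k ≥ 4` there is moreover a group generated by `k - 2` elements, all
of whose subgroups generated by `(k - 4) / 2` elements (rounded down) are finite, and whose
Tarski number is `k`.
-/

set_option autoImplicit false

theorem Pool.Agent.Results.MP_40d138_al.AllTarskiNumbers.result :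
    (∀ k : ℕ, (∃ (G : Type) (_ : Group G), Group.FG G ∧ TAR.HasTarskiNumber G k) ↔ 4 ≤ k) ∧
    (∃ (G : Type) (_ : Group G), Group.FG G ∧ ∀ m n : ℕ, ¬ TAR.HasParadox G m n) ∧
    (∀ k : ℕ, 4 ≤ k → ∃ (G : Type) (_ : Group G),
      (∃ s : Fin (k - 2) → G, Subgroup.closure (Set.range s) = ⊤) ∧
        (∀ s : Fin ((k - 4) / 2) → G, Finite (Subgroup.closure (Set.range s))) ∧
        TAR.HasTarskiNumber G k) := by
  refine ⟨TARF.all_tarski, TARF.exists_no_paradox, fun k hk => ?_⟩
  rcases Nat.even_or_odd' k with ⟨j, hj | hj⟩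
  · obtain ⟨r, rfl⟩ : ∃ r, j = r + 2 := ⟨j - 2, by omega⟩
    subst hj
    have e1 : 2 * (r + 2) - 2 = 2 * r + 2 := by omega
    have e2 : (2 * (r + 2) - 4) / 2 = r := by omega
    have e3 : 2 * (r + 2) = 2 * r + 4 := by omega
    rw [e1, e2, e3]
    rcases Nat.eq_zero_or_pos r with h | h
    · subst h
      refine ⟨FreeGroup (Fin 2), inferInstance,
        ⟨FreeGroup.of, FreeGroup.closure_range_of (Fin 2)⟩, TAR.rfin_zero _,
        ⟨2, 2, by omega, by omega, by omega, TAR.free_paradox⟩, ?_⟩
      intro m n _ _ hp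
      have h2 := TAR.lb (TAR.rfin_zero _) hp
      omega
    · exact TAR.family r h
  · obtain ⟨r, rfl⟩ : ∃ r, j = r + 2 := ⟨j - 2, by omega⟩
    subst hj
    have e1 : 2 * (r + 2) + 1 - 2 = 2 * r + 3 := by omega
    have e2 : (2 * (r + 2) + 1 - 4) / 2 = r := by omega
    have e3 : 2 * (r + 2) + 1 = 2 * r + 5 := by omega
    rw [e1, e2, e3]
    rcases Nat.eq_zero_or_pos r with h | h
    · subst h
      obtain ⟨G, hG, hgen, hT⟩ := TARF.five
      exact ⟨G, hG, hgen, TAR.rfin_zero _, hT⟩
    · exact TARO.odd_family r h
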